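import Pool.Agent.helper66.LIN.Spec

set_option autoImplicit false

/-! Row lin:PLG (MP_60c1a7_co): a solution of the new configuration gives a solution of the old
one. -/

namespace LSH.Lin

/-- members of a sum of multisets -/
lemma PLG_mem (f : Pt × BT → Multiset Pt) (M : Multiset (Pt × BT)) (p : Pt)
    (h : p ∈ (M.map f).sum) : ∃ i ∈ M, p ∈ f i := by
  induction M using Multiset.induction_on with
  | empty => simp at h
  | cons a M ih =>
    rw [Multiset.map_cons, Multiset.sum_cons, Multiset.mem_add] at h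
    rcases h with h | h
    · exact ⟨a, Multiset.mem_cons_self a M, h⟩
    · obtain ⟨i, hi, hp⟩ := ih h
      exact ⟨i, Multiset.mem_cons_of_mem hi, hp⟩

/-- the sum of pairwise disjoint multisets without repetition has no repetition -/
lemma PLG_sum (D : Pt → PT) (M : Multiset (Pt × BT)) (hM : (M.map Prod.fst).Nodup)
    (h1 : ∀ i ∈ M, (D i.1).pts.Nodup)
    (h2 : ∀ i ∈ M, ∀ j ∈ M, i.1 ≠ j.1 → ∀ p ∈ (D i.1).pts, p ∉ (D j.1).pts) :
    (M.map (fun i => (D i.1).pts)).sum.Nodup := by
  induction M using Multiset.induction_on with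
  | empty => simp
  | cons a M ih =>
    rw [Multiset.map_cons, Multiset.nodup_cons] at hM
    rw [Multiset.map_cons, Multiset.sum_cons, Multiset.nodup_add]
    refine ⟨h1 a (Multiset.mem_cons_self a M), ?_, ?_⟩
    · exact ih hM.2 (fun i hi => h1 i (Multiset.mem_cons_of_mem hi))
        (fun i hi j hj => h2 i (Multiset.mem_cons_of_mem hi) j (Multiset.mem_cons_of_mem hj))
    · rw [Multiset.disjoint_left]
      intro p hp hp'
      obtain ⟨j, hj, hps⟩ := PLG_mem _ M p hp'
      have hne : a.1 ≠ j.1 := by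
        intro h
        exact hM.1 (h ▸ Multiset.mem_map_of_mem Prod.fst hj)
      exact h2 a (Multiset.mem_cons_self a M) j (Multiset.mem_cons_of_mem hj) hne p hp hps

theorem PLG (hXNC : XNC_stmt) (hPLA : PLA_stmt) (hPLB : PLB_stmt) (hRGN : RGN_stmt)
    (hNDR : NDR_stmt) (hNSG : NSG_stmt) (hVLM : VLM_stmt) (hGTF : GTF_stmt) (hOB : OB_stmt) :
    PLG_stmt := by
  classical
  intro P L₀ σ X u t up x₁ q G D hst hg
  have hX := hXNC P L₀ σ X u t up x₁ q G D hst hg
  have hR := hRGN P ((u, t) ::ₘ L₀) σ X u t up x₁ G hst.cfg (Multiset.mem_cons_self _ _) hst.gad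
  have hN := hNDR P L₀ σ X u t up x₁ q G hst
  obtain ⟨-, -, -, hS⟩ := hNSG P L₀ σ X u t up x₁ q G hst
  obtain ⟨hV, -⟩ := hVLM P L₀ σ X u t up x₁ q G hst
  obtain ⟨-, -, hG3, hG4, -, -, hG7, -⟩ := hGTF
  obtain ⟨-, -, hO3, hO4⟩ := hOB
  have hsh : ∀ i ∈ G.pend, (D i.1).shape = i.2 := fun i hi =>
    hg.shape i (Multiset.mem_add.2 (Or.inr hi))
  obtain ⟨hA1, hA2, hA3, hA4⟩ := hPLA G D hsh
  set N : ℝ → ℝ := nsig ((u, t) ::ₘ L₀) σ u x₁ G.pend with hNdef
  have memR : ∀ i ∈ G.pend, i ∈ L₀ + G.pend := fun i hi => Multiset.mem_add.2 (Or.inr hi)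
  have memL : ∀ i ∈ L₀, i ∈ L₀ + G.pend := fun i hi => Multiset.mem_add.2 (Or.inl hi)
  -- the points of the gadget are on the left of the new front
  have keyA : ∀ p ∈ G.pts, p.1 ≤ N p.2 := by
    intro p hp
    obtain ⟨e, he, hb⟩ := hG7 G u true p hp
    have := hN e he e.b (hO3 e).2
    rw [hb] at this
    exact this
  have keyA' : ∀ p ∈ G.pts, p ∈ P ∧ σ p.2 < p.1 := by
    intro p hp
    have h := hst.gad.pts p hp
    unfold avs at h
    rw [Finset.mem_filter] at h
    exact ⟨h.1, h.2.1⟩
  have keyB : ∀ i ∈ L₀ + G.pend, ∀ p ∈ (D i.1).pts, N p.2 < p.1 := fun i hi p hp =>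
    (hg.pts i hi p hp).2
  have keyB' : ∀ i ∈ L₀ + G.pend, ∀ p ∈ (D i.1).pts, p ∈ P ∧ σ p.2 < p.1 := fun i hi p hp =>
    ⟨(hg.pts i hi p hp).1, lt_of_le_of_lt (hS p.2).1 (hg.pts i hi p hp).2⟩
  have dAB : ∀ p ∈ G.pts, ∀ i ∈ L₀ + G.pend, p ∉ (D i.1).pts := fun p hp i hi hp' =>
    absurd (keyB i hi p hp') (not_lt.2 (keyA p hp))
  -- members of the points of the new tree
  have memP : ∀ p, p ∈ (G.plug D).pts → p ∈ G.pts ∨ ∃ i ∈ G.pend, p ∈ (D i.1).pts := by
    intro p hp
    rw [hA3, Multiset.mem_add] at hp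
    rcases hp with hp | hp
    · exact Or.inl hp
    · obtain ⟨j, hj, hps⟩ := PLG_mem _ G.pend p hp
      exact Or.inr ⟨j, hj, hps⟩
  have memE : ∀ e, e ∈ att u true (G.plug D) →
      e ∈ attG u true G ∨ ∃ i ∈ G.pend, e ∈ att i.1 true (D i.1) := by
    intro e he
    unfold att at he
    rw [List.mem_cons] at he
    rcases he with he | he
    · left
      unfold attG
      rw [hA2] at he
      exact List.mem_cons.2 (Or.inl he)
    · rcases (hA4 e).1 he with he | he
      · exact Or.inl (List.mem_cons.2 (Or.inr he))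
      · exact Or.inr he
  refine ⟨Function.update D u (G.plug D), ?_⟩
  have hDu : Function.update D u (G.plug D) u = G.plug D := Function.update_self _ _ _
  have hDo : ∀ i ∈ L₀, Function.update D u (G.plug D) i.1 = D i.1 := fun i hi =>
    Function.update_of_ne (hV i hi).1 _ _
  have splitL : ∀ i ∈ (u, t) ::ₘ L₀, i = (u, t) ∨ i ∈ L₀ := fun i hi => Multiset.mem_cons.1 hi
  refine ⟨?_, ?_, ?_, ?_, ?_, ?_, ?_⟩
  · -- shape
    intro i hi
    rcases splitL i hi with rfl | hi
    · show (Function.update D u (G.plug D) u).shape = t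
      rw [hDu, hA1, hst.gad.shape]
    · rw [hDo i hi]
      exact hg.shape i (memL i hi)
  · -- pts
    intro i hi p hp
    rcases splitL i hi with rfl | hi
    · have hp' : p ∈ (G.plug D).pts := by rw [← hDu]; exact hp
      rcases memP p hp' with h | ⟨j, hj, h⟩
      · exact keyA' p h
      · exact keyB' j (memR j hj) p h
    · rw [hDo i hi] at hp
      exact keyB' i (memL i hi) p hp
  · -- nodup
    intro i hi
    rcases splitL i hi with rfl | hi
    · show (Function.update D u (G.plug D) u).pts.Nodup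
      rw [hDu, hA3, Multiset.nodup_add]
      refine ⟨hst.gad.nodup, ?_, ?_⟩
      · exact PLG_sum D G.pend (hG4 G hst.gad.nodup) (fun j hj => hg.nodup j (memR j hj))
          (fun j hj k hk => hg.disj j (memR j hj) k (memR k hk))
      · rw [Multiset.disjoint_left]
        intro p hp hp'
        obtain ⟨j, hj, hps⟩ := PLG_mem _ G.pend p hp'
        exact dAB p hp j (memR j hj) hps
    · rw [hDo i hi]
      exact hg.nodup i (memL i hi)
  · -- disj
    have hdis : ∀ j ∈ L₀, ∀ p ∈ (G.plug D).pts, p ∉ (D j.1).pts := by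
      intro j hj p hp
      rcases memP p hp with h | ⟨k, hk, h⟩
      · exact dAB p h j (memL j hj)
      · exact hg.disj k (memR k hk) j (memL j hj) (fun h' => (hV j hj).2.1 k hk h'.symm) p h
    intro i hi j hj hij p hp
    rcases splitL i hi with rfl | hi
    · rcases splitL j hj with rfl | hj
      · exact absurd rfl hij
      · rw [hDo j hj]
        have hp' : p ∈ (G.plug D).pts := by rw [← hDu]; exact hp
        exact hdis j hj p hp'
    · rw [hDo i hi] at hp
      rcases splitL j hj with rfl | hj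
      · show p ∉ (Function.update D u (G.plug D) u).pts
        rw [hDu]
        intro hp'
        exact hdis i hi p hp' hp
      · rw [hDo j hj]
        exact hg.disj i (memL i hi) j (memL j hj) hij p hp
  · -- nc
    intro i hi
    rcases splitL i hi with rfl | hi
    · show (att u true (Function.update D u (G.plug D) u)).Pairwise NC
      rw [hDu]
      exact hPLB G D u true hst.gad.nodup hsh hst.gad.nc (fun j hj => hg.nc j (memR j hj))
        (fun j hj => hX j (memR j hj))
        (fun j hj k hk => hg.ncd j (memR j hj) k (memR k hk))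
    · rw [hDo i hi]
      exact hg.nc i (memL i hi)
  · -- ncd
    have hdis : ∀ j ∈ L₀, ∀ e ∈ att u true (G.plug D), ∀ f ∈ att j.1 true (D j.1), NC e f := by
      intro j hj e he f hf
      rcases memE e he with h | ⟨k, hk, h⟩
      · exact hX j (memL j hj) e h f hf
      · exact hg.ncd k (memR k hk) j (memL j hj) (fun h' => (hV j hj).2.1 k hk h'.symm) e h f hf
    intro i hi j hj hij e he f hf
    rcases splitL i hi with rfl | hi
    · rcases splitL j hj with rfl | hj
      · exact absurd rfl hij
      · rw [hDo j hj] at hf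
        have he' : e ∈ att u true (G.plug D) := by rw [← hDu]; exact he
        exact hdis j hj e he' f hf
    · rw [hDo i hi] at he
      rcases splitL j hj with rfl | hj
      · have hf' : f ∈ att u true (G.plug D) := by rw [← hDu]; exact hf
        exact hO4 f e (hdis i hi f hf' e he)
      · rw [hDo j hj] at hf
        exact hg.ncd i (memL i hi) j (memL j hj) hij e he f hf
  · -- reg
    intro i hi e he z hz
    rcases splitL i hi with rfl | hi
    · have he' : e ∈ att u true (G.plug D) := by rw [← hDu]; exact he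
      rcases memE e he' with h | ⟨k, hk, h⟩
      · exact (hR e h z hz).1
      · rcases hg.reg k (memR k hk) e h z hz with h' | h'
        · right
          rw [h']
          exact (keyA' k.1 (hG3 G k hk)).2
        · right
          exact lt_of_le_of_lt (hS z.2).1 h'
    · rw [hDo i hi] at he
      rcases hg.reg i (memL i hi) e he z hz with h' | h'
      · exact Or.inl h'
      · exact Or.inr (lt_of_le_of_lt (hS z.2).1 h')

end LSH.Lin
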